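import Mathlib

/-!
# Monotone `Σ⁰₂` hulls are local monotone hulls of the meager sets

Q1 asks whether it is consistent that there is a monotone `Π⁰₃` hull operation on the sets with the
Baire property, but no monotone `Σ⁰₂` hull operation. We reduce the question to the ideal of the
meager sets, and find cases in which the answer is that there is a `Σ⁰₂` hull operation.

A hull operation `ψ` on the meager sets is local if `ψ(A) ∩ U` depends only on `A ∩ U`, for all open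
sets `U`.

1. There is a monotone `Σ⁰₂` hull operation on the sets with the Baire property if and only if there
   is a local monotone `Σ⁰₂` hull operation on the meager sets.
2. For `Π⁰₃` the word local is not needed (this part is known).
3. So Q1 is equivalent to the question whether it is consistent that there is a monotone `Π⁰₃` hull
   operation on the meager sets, but no local monotone `Σ⁰₂` hull operation on the meager sets.
4. Let `ψ` be a monotone `Σ⁰₂` hull operation on the meager sets which stabilises at the points: for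
   every meager set `A` and every point `x` the sets `ψ(A ∩ V)` are equal for all small open
   neighbourhoods `V` of `x`. Then there is a monotone `Σ⁰₂` hull operation on the sets with the Baire
   property. (For instance, if there is no infinite sequence `A₀ ⊇ A₁ ⊇ …` with `ψ(A₀) ⊋ ψ(A₁) ⊋ …`.)
5. The same holds if there is a cofinal family of meager `Σ⁰₂` sets which is indexed in a monotone way
   by a well-quasi-order, for instance by a finite product of well-orders.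
6. The same holds if some chain of meager sets (of any kind) is cofinal, that is, if `add(M) = cof(M)`.
   So in every model for Q1 no chain of meager sets is cofinal.

Proof of 1. If `Ψ` is a hull operation on the sets with the Baire property, then `φ(A)`, the union of
the sets `V ∩ Ψ(A ∪ Vᶜ)` over the basic open sets `V`, is local, since the sets `V ∩ Ψ(A ∪ Vᶜ)` grow
when `V` shrinks. If `φ` is local then one can take for `Ψ(A)` the set of the points at which `A` is not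
locally meager, together with the sets `V ∩ φ(A ∩ V)` for the basic `V` with `A ∩ V` meager.
Proof of 4. `φ(A)` is the set of the points `x` with `x ∈ ψ(A ∩ V)` for all neighbourhoods `V` of `x`.
-/

set_option autoImplicit false

open Set Topology TopologicalSpace

namespace Pool.Agent.Results.MP_a8a7e3_lc.LocalHulls

/-- the class `Σ⁰₂`: countable unions of closed sets -/
def Sigma2 (S : Set ℝ) : Prop :=
  ∃ 𝒞 : Set (Set ℝ), 𝒞.Countable ∧ (∀ C ∈ 𝒞, IsClosed C) ∧ S = ⋃₀ 𝒞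

/-- the class `Π⁰₃`: countable intersections of `Σ⁰₂` sets -/
def Pi3 (S : Set ℝ) : Prop :=
  ∃ 𝒞 : Set (Set ℝ), 𝒞.Countable ∧ (∀ C ∈ 𝒞, Sigma2 C) ∧ S = ⋂₀ 𝒞

/-- the sets with the Baire property -/
def Baire (A : Set ℝ) : Prop := ∃ G : Set ℝ, IsOpen G ∧ IsMeagre ((A \ G) ∪ (G \ A))

/-- `ψ` is a monotone `Γ` hull operation on the family `𝒜` -/
structure MonotoneHull (Γ 𝒜 : Set ℝ → Prop) (ψ : Set ℝ → Set ℝ) : Prop where
  mem : ∀ A, 𝒜 A → Γ (ψ A)
  sub : ∀ A, 𝒜 A → A ⊆ ψ A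
  meagre : ∀ A, 𝒜 A → IsMeagre (ψ A \ A)
  mono : ∀ A B, 𝒜 A → 𝒜 B → A ⊆ B → ψ A ⊆ ψ B

/-- `ψ` is local on the meager sets: the part of `ψ A` in an open set `U` depends only on the part of
`A` in `U` -/
def IsLocal (ψ : Set ℝ → Set ℝ) : Prop :=
  ∀ A U, IsMeagre A → IsOpen U → ψ A ∩ U = ψ (A ∩ U) ∩ U

section classes

theorem sigma2_closed {C : Set ℝ} (h : IsClosed C) : Sigma2 C :=
  ⟨{C}, countable_singleton C, by simpa using h, by simp⟩

theorem sigma2_iUnion {ι : Type*} [Countable ι] {f : ι → Set ℝ} (h : ∀ i, Sigma2 (f i)) :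
    Sigma2 (⋃ i, f i) := by
  choose T h1 h2 h3 using h
  refine ⟨⋃ i, T i, countable_iUnion h1, ?_, ?_⟩
  · intro C hC
    obtain ⟨i, hi⟩ := mem_iUnion.1 hC
    exact h2 i C hi
  · rw [sUnion_iUnion]
    exact iUnion_congr h3

theorem sigma2_union {S T : Set ℝ} (hS : Sigma2 S) (hT : Sigma2 T) : Sigma2 (S ∪ T) := by
  rw [union_eq_iUnion]
  exact sigma2_iUnion (by rintro (_ | _) <;> assumption)

theorem sigma2_inter {S T : Set ℝ} (hS : Sigma2 S) (hT : Sigma2 T) : Sigma2 (S ∩ T) := by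
  obtain ⟨A, a1, a2, rfl⟩ := hS
  obtain ⟨B, b1, b2, rfl⟩ := hT
  refine ⟨image2 (· ∩ ·) A B, a1.image2 b1 _, ?_, ?_⟩
  · rintro _ ⟨C, hC, D, hD, rfl⟩
    exact (a2 C hC).inter (b2 D hD)
  · ext x
    constructor
    · rintro ⟨⟨C, hC, hx⟩, ⟨D, hD, hy⟩⟩
      exact ⟨C ∩ D, ⟨C, hC, D, hD, rfl⟩, hx, hy⟩
    · rintro ⟨_, ⟨C, hC, D, hD, rfl⟩, hx, hy⟩
      exact ⟨⟨C, hC, hx⟩, ⟨D, hD, hy⟩⟩

theorem sigma2_open {U : Set ℝ} (h : IsOpen U) : Sigma2 U := by
  obtain ⟨F, h1, -, h2, -⟩ := h.exists_iUnion_isClosed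
  rw [← h2]
  exact sigma2_iUnion fun n => sigma2_closed (h1 n)

theorem sigma2_sInter {𝒞 : Set (Set ℝ)} (hf : 𝒞.Finite) (h : ∀ C ∈ 𝒞, Sigma2 C) :
    Sigma2 (⋂₀ 𝒞) := by
  induction 𝒞, hf using Set.Finite.induction_on with
  | empty =>
    rw [sInter_empty]
    exact sigma2_closed isClosed_univ
  | insert _ _ ih =>
    rw [sInter_insert]
    exact sigma2_inter (h _ (mem_insert _ _)) (ih fun C hC => h C (mem_insert_of_mem _ hC))

theorem baire_of_meagre {A : Set ℝ} (h : IsMeagre A) : Baire A :=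
  ⟨∅, isOpen_empty, by simpa using h⟩

/-- a meager set has a meager `Σ⁰₂` superset -/
theorem exists_sigma2 {A : Set ℝ} (h : IsMeagre A) : ∃ S, Sigma2 S ∧ IsMeagre S ∧ A ⊆ S := by
  obtain ⟨S, h1, h2, h3⟩ := isMeagre_iff_countable_union_isNowhereDense.1 h
  refine ⟨⋃ t : S, closure (t : Set ℝ), ?_, ?_, ?_⟩
  · have := h2.to_subtype
    exact sigma2_iUnion fun t => sigma2_closed isClosed_closure
  · have := h2.to_subtype
    exact isMeagre_iUnion fun t => (h1 t t.2).closure.isMeagre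
  · intro x hx
    obtain ⟨t, ht, hxt⟩ := h3 hx
    exact mem_iUnion.2 ⟨⟨t, ht⟩, subset_closure hxt⟩

end classes

/-- the countable basis -/
abbrev 𝓑 : Set (Set ℝ) := countableBasis ℝ

theorem basis {x : ℝ} {U : Set ℝ} (hU : IsOpen U) (hx : x ∈ U) : ∃ V ∈ 𝓑, x ∈ V ∧ V ⊆ U :=
  (isBasis_countableBasis ℝ).exists_subset_of_mem_open hx hU

theorem basis_open {V : Set ℝ} (hV : V ∈ 𝓑) : IsOpen V := isOpen_of_mem_countableBasis hV

instance : Countable 𝓑 := (countable_countableBasis ℝ).to_subtype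

/-- the points at which `A` is not locally meager -/
def D (A : Set ℝ) : Set ℝ := {x | ∀ V ∈ 𝓑, x ∈ V → ¬ IsMeagre (A ∩ V)}

theorem D_closed (A : Set ℝ) : IsClosed (D A) := by
  have h : (D A)ᶜ = ⋃₀ {V | V ∈ 𝓑 ∧ IsMeagre (A ∩ V)} := by
    ext x
    simp only [D, mem_compl_iff, mem_ofPred_eq, mem_sUnion]
    push Not
    constructor
    · rintro ⟨V, h1, h2, h3⟩
      exact ⟨V, ⟨h1, h3⟩, h2⟩
    · rintro ⟨V, ⟨h1, h3⟩, h2⟩
      exact ⟨V, h1, h2, h3⟩
  rw [← isOpen_compl_iff, h]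
  exact isOpen_sUnion fun V hV => basis_open hV.1

theorem D_mono {A B : Set ℝ} (h : A ⊆ B) : D A ⊆ D B := fun _ hx V hV hxV hm =>
  hx V hV hxV (hm.mono (inter_subset_inter_left V h))

theorem D_meagre {A : Set ℝ} (h : Baire A) : IsMeagre (D A \ A) := by
  obtain ⟨G, h1, h2⟩ := h
  have h3 : D A ⊆ closure G := by
    intro x hx
    by_contra hc
    obtain ⟨V, hV, hxV, hVG⟩ := basis isClosed_closure.isOpen_compl hc
    refine hx V hV hxV (h2.mono ?_)
    rintro y ⟨hyA, hyV⟩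
    exact Or.inl ⟨hyA, fun hyG => hVG hyV (subset_closure hyG)⟩
  have h4 : IsMeagre (closure G \ G) := by
    have : IsNowhereDense (frontier G) :=
      by
      rw [isClosed_frontier.isNowhereDense_iff, ← frontier_compl]
      exact interior_frontier h1.isClosed_compl
    refine this.isMeagre.mono ?_
    rw [h1.frontier_eq]
  refine (h4.union h2).mono ?_
  rintro x ⟨hx, hxA⟩
  by_cases hG : x ∈ G
  · exact Or.inr (Or.inr ⟨hG, hxA⟩)
  · exact Or.inl ⟨h3 hx, hG⟩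

theorem not_D {A : Set ℝ} {x : ℝ} (h : x ∉ D A) : ∃ V ∈ 𝓑, x ∈ V ∧ IsMeagre (A ∩ V) := by
  simpa [D] using h

/-- from a monotone `Σ⁰₂` hull on the sets with the Baire property to a local one on the meager
sets -/
theorem local_of_baire {Ψ : Set ℝ → Set ℝ} (h : MonotoneHull Sigma2 Baire Ψ) :
    ∃ φ, MonotoneHull Sigma2 IsMeagre φ ∧ IsLocal φ := by
  have hB : ∀ {A V : Set ℝ}, IsMeagre A → IsOpen V → Baire (A ∪ Vᶜ) := by
    intro A V hA hV
    refine ⟨interior Vᶜ, isOpen_interior, ?_⟩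
    have h4 : IsMeagre (Vᶜ \ interior Vᶜ) := by
      have : IsNowhereDense (frontier Vᶜ) :=
        (isClosed_frontier.isNowhereDense_iff).2 (interior_frontier hV.isClosed_compl)
      refine this.isMeagre.mono ?_
      rw [hV.isClosed_compl.frontier_eq]
    refine (hA.union h4).mono ?_
    rintro x (⟨hx | hx, hx'⟩ | ⟨hx, hx'⟩)
    · exact Or.inl hx
    · exact Or.inr ⟨hx, hx'⟩
    · exact absurd (Or.inr (interior_subset hx)) hx'
  let φ : Set ℝ → Set ℝ := fun A => ⋃ V : 𝓑, (V : Set ℝ) ∩ Ψ (A ∪ (V : Set ℝ)ᶜ)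
  have hmono : ∀ A B, IsMeagre A → IsMeagre B → A ⊆ B → φ A ⊆ φ B := by
    intro A B hA hB' hAB
    refine iUnion_mono fun V => inter_subset_inter_right _ ?_
    exact h.mono _ _ (hB hA (basis_open V.2)) (hB hB' (basis_open V.2))
      (union_subset_union_left _ hAB)
  refine ⟨φ, ⟨?_, ?_, ?_, hmono⟩, ?_⟩
  · intro A hA
    exact sigma2_iUnion fun V => sigma2_inter (sigma2_open (basis_open V.2))
      (h.mem _ (hB hA (basis_open V.2)))
  · intro A hA x hx
    obtain ⟨V, hV, hxV, -⟩ := basis isOpen_univ (mem_univ x)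
    exact mem_iUnion.2 ⟨⟨V, hV⟩, hxV, h.sub _ (hB hA (basis_open hV)) (Or.inl hx)⟩
  · intro A hA
    have h1 : IsMeagre (⋃ V : 𝓑, Ψ (A ∪ (V : Set ℝ)ᶜ) \ (A ∪ (V : Set ℝ)ᶜ)) :=
      isMeagre_iUnion fun V => h.meagre _ (hB hA (basis_open V.2))
    refine h1.mono ?_
    rintro x ⟨hx, hxA⟩
    obtain ⟨V, hxV, hx⟩ := mem_iUnion.1 hx
    exact mem_iUnion.2 ⟨V, hx, fun hc => hc.elim hxA fun h => h hxV⟩
  · intro A U hA hU
    have hAU : IsMeagre (A ∩ U) := hA.mono inter_subset_left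
    apply Subset.antisymm
    · rintro x ⟨hx, hxU⟩
      refine ⟨?_, hxU⟩
      obtain ⟨V, hxV, hx⟩ := mem_iUnion.1 hx
      obtain ⟨V', hV', hxV', hVU⟩ := basis ((basis_open V.2).inter hU) ⟨hxV, hxU⟩
      refine mem_iUnion.2 ⟨⟨V', hV'⟩, hxV', ?_⟩
      refine h.mono _ _ (hB hA (basis_open V.2)) (hB hAU (basis_open hV')) ?_ hx
      rintro y (hy | hy)
      · by_cases hyU : y ∈ U
        · exact Or.inl ⟨hy, hyU⟩
        · exact Or.inr fun hc => hyU (hVU hc).2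
      · exact Or.inr fun hc => hy (hVU hc).1
    · exact inter_subset_inter_left U (hmono _ _ hAU hA inter_subset_left)

/-- from a local monotone `Σ⁰₂` hull on the meager sets to one on the sets with the Baire property -/
theorem baire_of_local {φ : Set ℝ → Set ℝ} (h : MonotoneHull Sigma2 IsMeagre φ) (hl : IsLocal φ) :
    ∃ Ψ, MonotoneHull Sigma2 Baire Ψ := by
  let Ψ : Set ℝ → Set ℝ := fun A => D A ∪
    ⋃ V : {V : Set ℝ // V ∈ 𝓑 ∧ IsMeagre (A ∩ V)}, (V : Set ℝ) ∩ φ (A ∩ V)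
  have hc : ∀ A : Set ℝ, Countable {V : Set ℝ // V ∈ 𝓑 ∧ IsMeagre (A ∩ V)} := fun A =>
    ((countable_countableBasis ℝ).mono (fun _ h => h.1 :
      {V : Set ℝ | V ∈ 𝓑 ∧ IsMeagre (A ∩ V)} ⊆ 𝓑)).to_subtype
  refine ⟨Ψ, ⟨?_, ?_, ?_, ?_⟩⟩
  · intro A _
    have := hc A
    exact sigma2_union (sigma2_closed (D_closed A)) (sigma2_iUnion fun V =>
      sigma2_inter (sigma2_open (basis_open V.2.1)) (h.mem _ V.2.2))
  · intro A _ x hx
    by_cases hD : x ∈ D A
    · exact Or.inl hD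
    · obtain ⟨V, hV, hxV, hm⟩ := not_D hD
      exact Or.inr (mem_iUnion.2 ⟨⟨V, hV, hm⟩, hxV, h.sub _ hm ⟨hx, hxV⟩⟩)
  · intro A hA
    have := hc A
    have h1 : IsMeagre (⋃ V : {V : Set ℝ // V ∈ 𝓑 ∧ IsMeagre (A ∩ V)},
        φ (A ∩ V) \ (A ∩ (V : Set ℝ))) := isMeagre_iUnion fun V => h.meagre _ V.2.2
    refine ((D_meagre hA).union h1).mono ?_
    rintro x ⟨hx | hx, hxA⟩
    · exact Or.inl ⟨hx, hxA⟩
    · obtain ⟨V, -, hx⟩ := mem_iUnion.1 hx
      exact Or.inr (mem_iUnion.2 ⟨V, hx, fun hc => hxA hc.1⟩)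
  · intro A B _ _ hAB x hx
    rcases hx with hx | hx
    · exact Or.inl (D_mono hAB hx)
    · obtain ⟨⟨V, hV, hm⟩, hxV, hx⟩ := mem_iUnion.1 hx
      by_cases hD : x ∈ D B
      · exact Or.inl hD
      · obtain ⟨V', hV', hxV', hm'⟩ := not_D hD
        refine Or.inr (mem_iUnion.2 ⟨⟨V', hV', hm'⟩, hxV', ?_⟩)
        have h1 : x ∈ φ (A ∩ V ∩ V') ∩ V' := by
          rw [← hl _ _ hm (basis_open hV')]
          exact ⟨hx, hxV'⟩
        exact h.mono _ _ (hm.mono inter_subset_left) hm'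
          (fun y hy => ⟨hAB hy.1.1, hy.2⟩) h1.1

/-- `Π⁰₃` hulls extend from the meager sets to the sets with the Baire property -/
theorem pi3_baire {ψ : Set ℝ → Set ℝ} (h : MonotoneHull Pi3 IsMeagre ψ) :
    ∃ Ψ, MonotoneHull Pi3 Baire Ψ := by
  classical
  let ψ' : Set ℝ → Set ℝ := fun X => if IsMeagre X then ψ X else univ
  have hsig : ∀ {S V : Set ℝ}, Sigma2 S → IsOpen V → Sigma2 (Vᶜ ∪ S) := fun hS hV =>
    sigma2_union (sigma2_closed hV.isClosed_compl) hS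
  have hpi : ∀ X : Set ℝ, Pi3 (ψ' X) := by
    intro X
    by_cases hX : IsMeagre X
    · simp only [ψ', if_pos hX]
      exact h.mem _ hX
    · simp only [ψ', if_neg hX]
      exact ⟨∅, countable_empty, by simp, by simp⟩
  have hmono : ∀ X Y : Set ℝ, X ⊆ Y → ψ' X ⊆ ψ' Y := by
    intro X Y hXY
    by_cases hY : IsMeagre Y
    · have hX := hY.mono hXY
      simp only [ψ', if_pos hX, if_pos hY]
      exact h.mono _ _ hX hY hXY
    · simp only [ψ', if_neg hY]
      exact subset_univ _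
  have hsub : ∀ X : Set ℝ, X ⊆ ψ' X := by
    intro X
    by_cases hX : IsMeagre X
    · simp only [ψ', if_pos hX]
      exact h.sub _ hX
    · simp only [ψ', if_neg hX]
      exact subset_univ _
  refine ⟨fun A => ⋂ V : 𝓑, ((V : Set ℝ)ᶜ ∪ ψ' (A ∩ V)), ⟨?_, ?_, ?_, ?_⟩⟩
  · intro A _
    choose T h1 h2 h3 using fun V : 𝓑 => hpi (A ∩ V)
    refine ⟨⋃ V : 𝓑, (fun S => (V : Set ℝ)ᶜ ∪ S) '' T V, countable_iUnion fun V => (h1 V).image _,
      ?_, ?_⟩
    · intro C hC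
      obtain ⟨V, S, hS, rfl⟩ := mem_iUnion.1 hC
      exact hsig (h2 V S hS) (basis_open V.2)
    · ext x
      simp only [mem_iInter, mem_sInter, mem_iUnion]
      constructor
      · rintro hx _ ⟨V, S, hS, rfl⟩
        rcases hx V with hx | hx
        · exact Or.inl hx
        · rw [h3 V] at hx
          exact Or.inr (hx S hS)
      · intro hx V
        by_cases hxV : x ∈ (V : Set ℝ)
        · right
          rw [h3 V]
          intro S hS
          exact (hx _ ⟨V, S, hS, rfl⟩).resolve_left fun hc => hc hxV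
        · exact Or.inl hxV
  · intro A _ x hx
    refine mem_iInter.2 fun V => ?_
    by_cases hxV : x ∈ (V : Set ℝ)
    · exact Or.inr (hsub _ ⟨hx, hxV⟩)
    · exact Or.inl hxV
  · intro A hA
    have hc : Countable {V : Set ℝ // V ∈ 𝓑 ∧ IsMeagre (A ∩ V)} :=
      ((countable_countableBasis ℝ).mono (fun _ h => h.1 :
        {V : Set ℝ | V ∈ 𝓑 ∧ IsMeagre (A ∩ V)} ⊆ 𝓑)).to_subtype
    have h1 : IsMeagre (⋃ V : {V : Set ℝ // V ∈ 𝓑 ∧ IsMeagre (A ∩ V)},
        ψ (A ∩ V) \ (A ∩ (V : Set ℝ))) := isMeagre_iUnion fun V => h.meagre _ V.2.2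
    refine ((D_meagre hA).union h1).mono ?_
    rintro x ⟨hx, hxA⟩
    by_cases hD : x ∈ D A
    · exact Or.inl ⟨hD, hxA⟩
    · obtain ⟨V, hV, hxV, hm⟩ := not_D hD
      refine Or.inr (mem_iUnion.2 ⟨⟨V, hV, hm⟩, ?_, fun hc => hxA hc.1⟩)
      have h2 := (mem_iInter.1 hx ⟨V, hV⟩).resolve_left fun hc => hc hxV
      simpa only [ψ', if_pos hm] using h2
  · intro A B _ _ hAB
    refine iInter_mono fun V => union_subset_union_right _ (hmono _ _ ?_)
    exact inter_subset_inter_left _ hAB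

/-- stabilisation at the points gives locality -/
theorem local_of_stable {ψ : Set ℝ → Set ℝ} (h : MonotoneHull Sigma2 IsMeagre ψ)
    (hs : ∀ A x, IsMeagre A → ∃ V, IsOpen V ∧ x ∈ V ∧
      ∀ V', IsOpen V' → x ∈ V' → V' ⊆ V → ψ (A ∩ V') = ψ (A ∩ V)) :
    ∃ φ, MonotoneHull Sigma2 IsMeagre φ ∧ IsLocal φ := by
  let φ : Set ℝ → Set ℝ := fun A => {x | ∀ V, IsOpen V → x ∈ V → x ∈ ψ (A ∩ V)}
  have hm : ∀ {A V : Set ℝ}, IsMeagre A → IsMeagre (A ∩ V) := fun hA => hA.mono inter_subset_left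
  have hmono : ∀ A B, IsMeagre A → IsMeagre B → A ⊆ B → φ A ⊆ φ B := by
    intro A B hA hB hAB x hx V hV hxV
    exact h.mono _ _ (hm hA) (hm hB) (inter_subset_inter_left _ hAB) (hx V hV hxV)
  refine ⟨φ, ⟨?_, ?_, ?_, hmono⟩, ?_⟩
  · intro A hA
    have key : φ A = ⋃ V : 𝓑, (((V : Set ℝ) ∩
        (⋃₀ {V' | IsOpen V' ∧ V' ⊆ V ∧ ψ (A ∩ V') ≠ ψ (A ∩ V)})ᶜ) ∩ ψ (A ∩ V)) := by
      ext x
      simp only [mem_iUnion]
      constructor
      · intro hx
        obtain ⟨V, hV, hxV, hst⟩ := hs A x hA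
        obtain ⟨W, hW, hxW, hWV⟩ := basis hV hxV
        refine ⟨⟨W, hW⟩, ⟨hxW, ?_⟩, hx W (basis_open hW) hxW⟩
        rintro ⟨V', ⟨h1, h2, h3⟩, hxV'⟩
        exact h3 ((hst V' h1 hxV' (h2.trans hWV)).trans (hst W (basis_open hW) hxW hWV).symm)
      · rintro ⟨V, ⟨hxV, hst⟩, hx⟩ W hW hxW
        have h1 : ψ (A ∩ (V ∩ W)) = ψ (A ∩ V) := by
          by_contra hc
          exact hst ⟨V ∩ W, ⟨(basis_open V.2).inter hW, inter_subset_left, hc⟩, hxV, hxW⟩
        rw [← h1] at hx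
        exact h.mono _ _ (hm hA) (hm hA) (inter_subset_inter_right _ inter_subset_right) hx
    rw [key]
    refine sigma2_iUnion fun V => sigma2_inter (sigma2_inter (sigma2_open (basis_open V.2))
      (sigma2_closed ?_)) (h.mem _ (hm hA))
    exact (isOpen_sUnion fun V' hV' => hV'.1).isClosed_compl
  · intro A hA x hx V _ hxV
    exact h.sub _ (hm hA) ⟨hx, hxV⟩
  · intro A hA
    refine (h.meagre A hA).mono ?_
    rintro x ⟨hx, hxA⟩
    refine ⟨?_, hxA⟩
    have := hx univ isOpen_univ (mem_univ x)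
    rwa [inter_univ] at this
  · intro A U hA hU
    apply Subset.antisymm
    · rintro x ⟨hx, hxU⟩
      refine ⟨fun V hV hxV => ?_, hxU⟩
      rw [inter_assoc]
      exact hx (U ∩ V) (hU.inter hV) ⟨hxU, hxV⟩
    · exact inter_subset_inter_left U (hmono _ _ (hm hA) hA inter_subset_left)

/-- the descending chain condition gives stabilisation -/
theorem stable_of_dcc {ψ : Set ℝ → Set ℝ}
    (hmono : ∀ A B, IsMeagre A → IsMeagre B → A ⊆ B → ψ A ⊆ ψ B)
    (hd : ∀ f : ℕ → Set ℝ, (∀ n, IsMeagre (f n)) → Antitone f → ∃ N, ∀ n ≥ N, ψ (f n) = ψ (f N))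
    (A : Set ℝ) (x : ℝ) (hA : IsMeagre A) : ∃ V, IsOpen V ∧ x ∈ V ∧
      ∀ V', IsOpen V' → x ∈ V' → V' ⊆ V → ψ (A ∩ V') = ψ (A ∩ V) := by
  have hm : ∀ V : Set ℝ, IsMeagre (A ∩ V) := fun V => hA.mono inter_subset_left
  obtain ⟨N, hN⟩ := hd (fun n => A ∩ Metric.ball x (1 / (n + 1))) (fun n => hm _) (by
    intro m n hmn
    refine inter_subset_inter_right _ (Metric.ball_subset_ball ?_)
    gcongr)
  refine ⟨Metric.ball x (1 / (N + 1)), Metric.isOpen_ball, Metric.mem_ball_self (by positivity),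
    fun V' hV' hxV' hsub => ?_⟩
  obtain ⟨ε, hε, hb⟩ := Metric.isOpen_iff.1 hV' x hxV'
  obtain ⟨k, hk⟩ := exists_nat_one_div_lt hε
  have h1 : Metric.ball x (1 / (((max N k : ℕ) : ℝ) + 1)) ⊆ V' := by
    refine (Metric.ball_subset_ball ?_).trans hb
    refine le_trans ?_ hk.le
    gcongr
    exact le_max_right _ _
  have h2 := hN (max N k) (le_max_left _ _)
  apply Subset.antisymm
  · exact hmono _ _ (hm _) (hm _) (inter_subset_inter_right _ hsub)
  · rw [← h2]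
    exact hmono _ _ (hm _) (hm _) (inter_subset_inter_right _ h1)

/-- upward closed subsets of well-quasi-orders are finitely generated -/
theorem finite_generation {I : Type*} [Preorder I] [WellQuasiOrderedLE I] (U : Set I) :
    ∃ s ⊆ U, s.Finite ∧ ∀ i ∈ U, ∃ j ∈ s, j ≤ i := by
  by_contra hc
  push Not at hc
  obtain ⟨f, -, hf⟩ := exists_seq_of_forall_finset_exists (fun i => i ∈ U) (fun i j => ¬ i ≤ j) (by
    intro s hs
    obtain ⟨i, hi, h⟩ := hc s hs s.finite_toSet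
    exact ⟨i, hi, fun j hj => h j hj⟩)
  obtain ⟨m, n, hmn, h⟩ := wellQuasiOrdered_le (α := I) f
  exact hf m n hmn h

/-- hulls from a cofinal family of meager `Σ⁰₂` sets indexed by a well-quasi-order -/
theorem local_of_wqo {I : Type} [Preorder I] [WellQuasiOrderedLE I] {F : I → Set ℝ}
    (hF : Monotone F) (h2 : ∀ i, Sigma2 (F i)) (hm : ∀ i, IsMeagre (F i))
    (hc : ∀ A, IsMeagre A → ∃ i, A ⊆ F i) :
    ∃ φ, MonotoneHull Sigma2 IsMeagre φ ∧ IsLocal φ := by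
  let ψ : Set ℝ → Set ℝ := fun A => ⋂₀ (F '' {i | A ⊆ F i})
  have gen : ∀ (U s : Set I), s ⊆ U → (∀ i ∈ U, ∃ j ∈ s, j ≤ i) → ⋂₀ (F '' U) = ⋂₀ (F '' s) := by
    intro U s hs hU
    apply Subset.antisymm
    · exact sInter_subset_sInter (image_mono hs)
    · rintro x hx _ ⟨i, hi, rfl⟩
      obtain ⟨j, hj, hji⟩ := hU i hi
      exact hF hji (hx _ ⟨j, hj, rfl⟩)
  have hmono : ∀ A B, A ⊆ B → ψ A ⊆ ψ B := fun A B hAB =>
    sInter_subset_sInter (image_mono fun i hi => hAB.trans hi)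
  have hψ : MonotoneHull Sigma2 IsMeagre ψ := by
    refine ⟨?_, ?_, ?_, fun A B _ _ => hmono A B⟩
    · intro A _
      obtain ⟨s, hs, hfin, hgen⟩ := finite_generation {i | A ⊆ F i}
      rw [show ψ A = ⋂₀ (F '' s) from gen _ s hs hgen]
      refine sigma2_sInter (hfin.image F) ?_
      rintro _ ⟨i, -, rfl⟩
      exact h2 i
    · rintro A _ x hx _ ⟨i, hi, rfl⟩
      exact hi hx
    · intro A hA
      obtain ⟨i, hi⟩ := hc A hA
      refine (hm i).mono ?_
      rintro x ⟨hx, -⟩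
      exact hx _ ⟨i, hi, rfl⟩
  refine local_of_stable hψ fun A x hA => stable_of_dcc hψ.mono ?_ A x hA
  intro f _ hf
  obtain ⟨s, hs, hfin, hgen⟩ := finite_generation (⋃ n, {i | f n ⊆ F i})
  have hmon : Monotone fun n => {i | f n ⊆ F i} := fun m n hmn i hi => (hf hmn).trans hi
  have hex : ∀ j ∈ s, ∃ n, f n ⊆ F j := fun j hj => mem_iUnion.1 (hs hj)
  choose! n hn using hex
  obtain ⟨N, hN⟩ := (hfin.image n).bddAbove
  have hval : ∀ k ≥ N, ψ (f k) = ⋂₀ (F '' s) := by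
    intro k hk
    refine gen _ s (fun j hj => hmon ((hN (mem_image_of_mem n hj)).trans hk) (hn j hj)) ?_
    exact fun i hi => hgen i (mem_iUnion.2 ⟨k, hi⟩)
  exact ⟨N, fun k hk => (hval k hk).trans (hval N le_rfl).symm⟩

open Cardinal in
/-- if some chain of meager sets is cofinal, then some well-ordered chain of meager `Σ⁰₂` sets is
cofinal -/
theorem exists_scale {𝒞 : Set (Set ℝ)} (hch : IsChain (· ⊆ ·) 𝒞) (hC : ∀ P ∈ 𝒞, IsMeagre P)
    (hcof : ∀ A, IsMeagre A → ∃ P ∈ 𝒞, A ⊆ P) :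
    ∃ (I : Type) (_ : LinearOrder I) (_ : WellFoundedLT I) (F : I → Set ℝ), Monotone F ∧
      (∀ i, Sigma2 (F i)) ∧ (∀ i, IsMeagre (F i)) ∧ ∀ A, IsMeagre A → ∃ i, A ⊆ F i := by
  classical
  let S : Set Cardinal.{0} := {c | ∃ 𝒟 : Set (Set ℝ), #𝒟 = c ∧ (∀ P ∈ 𝒟, IsMeagre P) ∧
    ∀ A, IsMeagre A → ∃ P ∈ 𝒟, A ⊆ P}
  have hS : S.Nonempty := ⟨_, 𝒞, rfl, hC, hcof⟩
  obtain ⟨𝒟, hD1, hD2, hD3⟩ := csInf_mem hS
  set κ := sInf S with hκ
  -- families of fewer than `κ` meager sets are bounded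
  have bdd : ∀ {J : Type} (B : J → Set ℝ), #J < κ → (∀ j, IsMeagre (B j)) →
      ∃ Q, IsMeagre Q ∧ ∀ j, B j ⊆ Q := by
    intro J B hJ hB
    choose P hP hBP using fun j => hcof (B j) (hB j)
    have hnot : #(range P) ∉ S := fun hc =>
      absurd (csInf_le' hc) (not_le.2 (mk_range_le.trans_lt hJ))
    have : ∃ A, IsMeagre A ∧ ∀ j, ¬ A ⊆ P j := by
      by_contra hc
      push Not at hc
      refine hnot ⟨range P, rfl, ?_, fun A hA => ?_⟩
      · rintro _ ⟨j, rfl⟩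
        exact hC _ (hP j)
      · obtain ⟨j, hj⟩ := hc A hA
        exact ⟨P j, ⟨j, rfl⟩, hj⟩
    obtain ⟨A, hA, hAP⟩ := this
    obtain ⟨Q, hQ, hAQ⟩ := hcof A hA
    refine ⟨Q, hC Q hQ, fun j => (hBP j).trans ?_⟩
    rcases hch.total (hP j) hQ with h | h
    · exact h
    · exact absurd (hAQ.trans h) (hAP j)
  let I : Type := κ.ord.ToType
  obtain ⟨e⟩ : Nonempty (I ≃ 𝒟) := Cardinal.eq.1 (by rw [hD1]; exact mk_ord_toType κ)
  choose hull hh1 hh2 hh3 using fun A : {A : Set ℝ // IsMeagre A} => exists_sigma2 A.2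
  let step : (i : I) → ((j : I) → j < i → Set ℝ) → Set ℝ := fun i g =>
    if h : IsMeagre ((e i : Set ℝ) ∪ ⋃ j : Iio i, g j j.2) then hull ⟨_, h⟩ else univ
  let F : I → Set ℝ := (wellFounded_lt : WellFounded ((· < ·) : I → I → Prop)).fix step
  have hF : ∀ i, F i = if h : IsMeagre ((e i : Set ℝ) ∪ ⋃ j : Iio i, F j) then hull ⟨_, h⟩
      else univ := fun i => WellFounded.fix_eq _ step i
  have hmain : ∀ i, IsMeagre (F i) := by
    intro i
    induction i using (wellFounded_lt : WellFounded ((· < ·) : I → I → Prop)).induction with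
    | _ i ih =>
      obtain ⟨Q, hQ, hQj⟩ := bdd (fun j : Iio i => F j) (by
        have := mk_Iio_lt (α := I) i (by simp [I])
        rwa [show #I = κ from mk_ord_toType κ] at this) fun j => ih j j.2
      have h : IsMeagre ((e i : Set ℝ) ∪ ⋃ j : Iio i, F j) :=
        ((hD2 _ (e i).2).union hQ).mono (union_subset_union_right _ (iUnion_subset hQj))
      rw [hF, dif_pos h]
      exact hh2 _
  have hmeag : ∀ i, IsMeagre ((e i : Set ℝ) ∪ ⋃ j : Iio i, F j) := by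
    intro i
    obtain ⟨Q, hQ, hQj⟩ := bdd (fun j : Iio i => F j) (by
      have := mk_Iio_lt (α := I) i (by simp [I])
      rwa [show #I = κ from mk_ord_toType κ] at this) fun j => hmain j
    exact ((hD2 _ (e i).2).union hQ).mono (union_subset_union_right _ (iUnion_subset hQj))
  have hsub : ∀ i, ((e i : Set ℝ) ∪ ⋃ j : Iio i, F j) ⊆ F i := by
    intro i
    conv_rhs => rw [hF, dif_pos (hmeag i)]
    exact hh3 ⟨_, hmeag i⟩
  refine ⟨I, inferInstance, inferInstance, F, ?_, ?_, hmain, ?_⟩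
  · intro j i hji
    rcases hji.eq_or_lt with rfl | hlt
    · exact le_rfl
    · exact fun x hx => hsub i (Or.inr (mem_iUnion.2 ⟨⟨j, hlt⟩, hx⟩))
  · intro i
    rw [hF, dif_pos (hmeag i)]
    exact hh1 _
  · intro A hA
    obtain ⟨P, hP, hAP⟩ := hD3 A hA
    refine ⟨e.symm ⟨P, hP⟩, fun x hx => hsub _ (Or.inl ?_)⟩
    rw [e.apply_symm_apply]
    exact hAP hx

theorem MonotoneHull.restrict {Γ : Set ℝ → Prop} {Ψ : Set ℝ → Set ℝ} (h : MonotoneHull Γ Baire Ψ) :
    MonotoneHull Γ IsMeagre Ψ :=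
  ⟨fun A hA => h.mem A (baire_of_meagre hA), fun A hA => h.sub A (baire_of_meagre hA),
    fun A hA => h.meagre A (baire_of_meagre hA),
    fun A B hA hB => h.mono A B (baire_of_meagre hA) (baire_of_meagre hB)⟩

/-- **Monotone `Σ⁰₂` hulls are local monotone hulls of the meager sets.** -/
theorem result :
    -- `Σ⁰₂` hulls of the sets with the Baire property and local hulls of the meager sets
    ((∃ Ψ, MonotoneHull Sigma2 Baire Ψ) ↔ ∃ φ, MonotoneHull Sigma2 IsMeagre φ ∧ IsLocal φ) ∧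
    -- `Π⁰₃` hulls
    ((∃ Ψ, MonotoneHull Pi3 Baire Ψ) ↔ ∃ ψ, MonotoneHull Pi3 IsMeagre ψ) ∧
    -- the statement of Q1 in terms of the ideal of the meager sets
    (((∃ Ψ, MonotoneHull Pi3 Baire Ψ) ∧ ¬ ∃ Ψ, MonotoneHull Sigma2 Baire Ψ) ↔
      ((∃ ψ, MonotoneHull Pi3 IsMeagre ψ) ∧
        ¬ ∃ φ, MonotoneHull Sigma2 IsMeagre φ ∧ IsLocal φ)) ∧
    -- hull operations on the meager sets which stabilise at the points
    (∀ ψ, MonotoneHull Sigma2 IsMeagre ψ →
      (∀ A x, IsMeagre A → ∃ V, IsOpen V ∧ x ∈ V ∧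
        ∀ V', IsOpen V' → x ∈ V' → V' ⊆ V → ψ (A ∩ V') = ψ (A ∩ V)) →
      ∃ Ψ, MonotoneHull Sigma2 Baire Ψ) ∧
    -- cofinal families indexed by well-quasi-orders
    (∀ (I : Type) (_ : Preorder I) (_ : WellQuasiOrderedLE I) (F : I → Set ℝ), Monotone F →
      (∀ i, Sigma2 (F i)) → (∀ i, IsMeagre (F i)) → (∀ A, IsMeagre A → ∃ i, A ⊆ F i) →
      ∃ Ψ, MonotoneHull Sigma2 Baire Ψ) ∧
    -- cofinal chains
    (∀ 𝒞 : Set (Set ℝ), IsChain (· ⊆ ·) 𝒞 → (∀ P ∈ 𝒞, IsMeagre P) →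
      (∀ A, IsMeagre A → ∃ P ∈ 𝒞, A ⊆ P) → ∃ Ψ, MonotoneHull Sigma2 Baire Ψ) := by
  have h1 : (∃ Ψ, MonotoneHull Sigma2 Baire Ψ) ↔
      ∃ φ, MonotoneHull Sigma2 IsMeagre φ ∧ IsLocal φ :=
    ⟨fun ⟨_, h⟩ => local_of_baire h, fun ⟨_, h, hl⟩ => baire_of_local h hl⟩
  have h2 : (∃ Ψ, MonotoneHull Pi3 Baire Ψ) ↔ ∃ ψ, MonotoneHull Pi3 IsMeagre ψ :=
    ⟨fun ⟨Ψ, h⟩ => ⟨Ψ, h.restrict⟩, fun ⟨_, h⟩ => pi3_baire h⟩
  refine ⟨h1, h2, by rw [h1, h2], fun ψ h hs => h1.2 (local_of_stable h hs), ?_, ?_⟩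
  · intro I _ _ F hF hF2 hFm hFc
    exact h1.2 (local_of_wqo hF hF2 hFm hFc)
  · intro 𝒞 hch hC hcof
    obtain ⟨I, _, _, F, hF, hF2, hFm, hFc⟩ := exists_scale hch hC hcof
    exact h1.2 (local_of_wqo hF hF2 hFm hFc)

end Pool.Agent.Results.MP_a8a7e3_lc.LocalHulls
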